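import Pool.Agent.V1169.Prod

/-! # `MP_95ad2c_an`, Q1: the Cantor dust is `c`-removable

`Pool.Agent.V1169.LocallyConvexOn U f` says that every point of `U` has an open convex
neighbourhood contained in `U` on which `f` is convex; `Pool.Agent.V1169.CRemovable A` says that
`A` is closed and every continuous function on the plane that is locally convex off `A` is convex.
-/

set_option autoImplicit false

open Set MeasureTheory Pool.Agent.V1169

namespace Pool.Agent.Results.MP_95ad2c_an.CantorDust

theorem volume_third (S : Set ℝ) (c : ℝ) :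
    volume ((fun x : ℝ => (c + x) / 3) '' S) ≤ ENNReal.ofReal (1 / 3) * volume S := by
  have h1 : (fun x : ℝ => (c + x) / 3) '' S = (fun y : ℝ => (1 / 3 : ℝ) • y) '' ((fun x => c + x) '' S) := by
    rw [image_image]
    refine image_congr fun x _ => ?_
    simp only [smul_eq_mul]
    ring
  rw [h1, image_smul, Measure.addHaar_smul, image_add_left, measure_preimage_add]
  simp

/-- The middle-thirds Cantor set is a null set. -/
theorem volume_cantorSet : volume cantorSet = 0 := by
  have hfin : volume cantorSet ≠ ⊤ := by
    refine ((measure_mono cantorSet_subset_unitInterval).trans_lt ?_).ne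
    rw [Real.volume_Icc]
    exact ENNReal.ofReal_lt_top
  have h1 := volume_third cantorSet 0
  have h2 := volume_third cantorSet 2
  simp only [zero_add] at h1
  have h3 : volume cantorSet ≤ ENNReal.ofReal (1 / 3) * volume cantorSet
      + ENNReal.ofReal (1 / 3) * volume cantorSet := by
    conv_lhs => rw [cantorSet_eq_union_halves]
    exact (measure_union_le _ _).trans (add_le_add h1 h2)
  obtain ⟨r, hr⟩ : ∃ r : NNReal, (r : ENNReal) = volume cantorSet :=
    ⟨_, ENNReal.coe_toNNReal hfin⟩
  rw [← hr] at h3 ⊢
  have h4 : ENNReal.ofReal (1 / 3) = ((1 / 3 : NNReal) : ENNReal) := by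
    rw [ENNReal.ofReal]
    congr 1
    rw [← NNReal.coe_inj, Real.coe_toNNReal _ (by norm_num)]
    norm_num
  rw [h4] at h3
  have h5 : r ≤ 1 / 3 * r + 1 / 3 * r := by exact_mod_cast h3
  have h6 : (r : ℝ) ≤ 1 / 3 * r + 1 / 3 * r := by exact_mod_cast h5
  have h7 : (r : ℝ) = 0 := le_antisymm (by linarith) r.2
  have h8 : r = 0 := by exact_mod_cast h7
  rw [h8]
  rfl

theorem interior_cantorSet : interior cantorSet = ∅ := by
  by_contra hne
  have := isOpen_interior.measure_pos volume (Set.nonempty_iff_ne_empty.2 hne)
  exact absurd (measure_mono_null interior_subset volume_cantorSet) this.ne'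

/-- The product of a closed Lebesgue null set and a closed set with empty interior is
`c`-removable; in particular the Cantor dust `C × C` is `c`-removable. -/
theorem result :
    (∀ A B : Set ℝ, IsClosed A → volume A = 0 → IsClosed B → interior B = ∅ →
      CRemovable (A ×ˢ B)) ∧ CRemovable (cantorSet ×ˢ cantorSet) :=
  ⟨fun _ _ hA hA0 hB hB0 => cRemovable_prod hA hA0 hB hB0,
    cRemovable_prod isClosed_cantorSet volume_cantorSet isClosed_cantorSet interior_cantorSet⟩

end Pool.Agent.Results.MP_95ad2c_an.CantorDust
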